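import Mathlib
import Pool.Agent.H67.Tame.Notions
import Pool.Agent.H67.Tame.Stmt
import Pool.Agent.H47.TA.Crit
import Pool.Agent.H47.TB.Both

/-!
Let `X` be a closed complex submanifold, of any dimension, of a complex Euclidean space (in other
words a Stein manifold) with the density property.

If `X` is connected then every weakly tame subset of `X` is tame.

For arbitrary `X` a weakly tame set `D` is tame if and only if either `D` lies in one connected
component of `X`, or no component contains two points of `D`, for any two points of `D` some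
automorphism of `X` maps the first one to the second one, and infinitely many components which do
not meet `D` are images of components which meet `D` under automorphisms of `X`.

The two disjoint planes `z₂ = 0` and `z₂ = 1` in `ℂ³` together have the density property, and they
contain a weakly tame set which is not tame.

All notions are defined in `Pool/Agent/H67/Tame/Notions.lean`.
-/

namespace Pool.Agent.Results.MP_844988_an.TamenessCriterion

open H67.Tame H67.Tame.Stmt

theorem result :
    (∀ (N n : ℕ) (X : Set (EuclideanSpace ℂ (Fin N))), Submanifold X n → DensityC X ∨ DensityR X →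
      (IsConnected X → ∀ D : Set X, Stmt.WeaklyTame D → Stmt.Tame D) ∧
      ∀ D : Set X, Stmt.WeaklyTame D → (Stmt.Tame D ↔
        (∀ x ∈ D, ∀ y ∈ D, connectedComponent x = connectedComponent y) ∨
        ((∀ x ∈ D, ∀ y ∈ D, x ≠ y → connectedComponent x ≠ connectedComponent y) ∧
          (∀ x ∈ D, ∀ y ∈ D, ∃ Φ : X ≃ X, IsAut Φ ∧ Φ x = y) ∧
          {c : ConnectedComponents X | (∀ x ∈ D, (x : ConnectedComponents X) ≠ c) ∧
            ∃ Φ : X ≃ X, IsAut Φ ∧ ∃ x ∈ D, (Φ x : ConnectedComponents X) = c}.Infinite))) ∧
    ∃ X : Set (EuclideanSpace ℂ (Fin 3)), X = {z | z 2 * (z 2 - 1) = 0} ∧ Submanifold X 2 ∧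
      DensityC X ∧ DensityR X ∧ ∃ D : Set X, Stmt.WeaklyTame D ∧ ¬ Stmt.Tame D := by
  refine ⟨fun N n X hX hD => ⟨fun hc D hw => ?_, fun D hw => ⟨fun hT => ?_, ?_⟩⟩, Pool.Agent.H47.TB.X2, rfl,
    Pool.Agent.H47.TB.submanifold_X2, Pool.Agent.H47.TB.densityC_X2,
    Pool.Agent.H47.TB.densityR_of_C Pool.Agent.H47.TB.densityC_X2, Pool.Agent.H47.TB.DD,
    Pool.Agent.H47.TB.weaklyTame_DD, Pool.Agent.H47.TB.not_tame_DD⟩
  · refine Pool.Agent.H47.TA.comp_tame hX hD hw fun x _ y _ => ?_
    have h1 : PreconnectedSpace X := isPreconnected_iff_preconnectedSpace.1 hc.isPreconnected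
    rw [PreconnectedSpace.connectedComponent_eq_univ, PreconnectedSpace.connectedComponent_eq_univ]
  · rcases Pool.Agent.H47.TA.tame_comp hT with h | h
    · exact Or.inl h
    · have h2 := Pool.Agent.H47.TA.tame_crit hX hT h
      exact Or.inr ⟨h, h2.1, h2.2⟩
  · rintro (h | ⟨h1, h2, h3⟩)
    · exact Pool.Agent.H47.TA.comp_tame hX hD hw h
    · exact Pool.Agent.H47.TA.crit_tame hX hw.1 h1 h2 h3

end Pool.Agent.Results.MP_844988_an.TamenessCriterion
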